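import Pool.Agent.N290.RJ.Stm

/-!
# Project RJ (helper290), part C2a: slices, nonnegative functions (helper849, helper27)
-/

set_option autoImplicit false

open Complex MeasureTheory Set Filter Topology
open scoped ENNReal

namespace Pool.Agent.N27.RJ

open Pool.Agent.N290.RJ

variable {d : ℕ}

/-- multiplication by a complex number, as a real linear map -/
noncomputable def mu (d : ℕ) (τ : ℂ) : (Fin d → ℂ) →ₗ[ℝ] (Fin d → ℂ) :=
  (τ • (LinearMap.id : (Fin d → ℂ) →ₗ[ℂ] (Fin d → ℂ))).restrictScalars ℝ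

theorem det_mu (τ : ℂ) : LinearMap.det (mu d τ) = ‖τ‖ ^ (2 * d) := by
  unfold mu
  rw [LinearMap.det_restrictScalars, LinearMap.det_smul, LinearMap.det_id, mul_one,
    Module.finrank_fin_fun, Algebra.norm_complex_apply, Complex.normSq_eq_norm_sq, norm_pow,
    ← pow_mul, mul_comm]

theorem scale (τ : ℂ) (hτ : τ ≠ 0) (g : (Fin d → ℂ) → ℝ≥0∞) (hg : Measurable g) :
    ∫⁻ ζ, g ζ = ∫⁻ s, ENNReal.ofReal (‖τ‖ ^ (2 * d)) * g (τ • s) := by
  have hn : 0 < ‖τ‖ ^ (2 * d) := by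
    have := norm_pos_iff.mpr hτ
    positivity
  have h1 : (volume : Measure (Fin d → ℂ)).map (mu d τ) =
      ENNReal.ofReal |(LinearMap.det (mu d τ))⁻¹| • (volume : Measure (Fin d → ℂ)) :=
    Measure.map_linearMap_addHaar_eq_smul_addHaar _ (by rw [det_mu]; exact hn.ne')
  have hmul : Measurable fun s : Fin d → ℂ => τ • s := by fun_prop
  have h2 : ∫⁻ s, g (τ • s) = ENNReal.ofReal (‖τ‖ ^ (2 * d))⁻¹ * ∫⁻ ζ, g ζ := by
    have h3 : ∫⁻ ζ, g ζ ∂((volume : Measure (Fin d → ℂ)).map fun s : Fin d → ℂ => τ • s) =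
        ∫⁻ s, g (τ • s) := lintegral_map hg hmul
    have h4 : ((volume : Measure (Fin d → ℂ)).map fun s : Fin d → ℂ => τ • s) =
        (volume : Measure (Fin d → ℂ)).map (mu d τ) := rfl
    rw [← h3, h4, h1, lintegral_smul_measure, det_mu, abs_of_pos (inv_pos.mpr hn)]
    rfl
  have hgm : Measurable fun s : Fin d → ℂ => g (τ • s) := hg.comp hmul
  rw [lintegral_const_mul _ hgm, h2, ← mul_assoc, ← ENNReal.ofReal_mul hn.le,
    mul_inv_cancel₀ hn.ne', ENNReal.ofReal_one, one_mul]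

theorem mem_iff (τ : ℂ) (s : Fin d → ℂ) : ((τ, τ • s) : E d) ∈ B d ↔
    τ ∈ Metric.ball (0 : ℂ) (Real.sqrt (1 + ∑ i, ‖s i‖ ^ 2))⁻¹ := by
  have h0 : 0 < 1 + ∑ i, ‖s i‖ ^ 2 := by positivity
  have h1 : 0 < Real.sqrt (1 + ∑ i, ‖s i‖ ^ 2) := Real.sqrt_pos.mpr h0
  have h2 : N ((τ, τ • s) : E d) = (‖τ‖ * Real.sqrt (1 + ∑ i, ‖s i‖ ^ 2)) ^ 2 := by
    rw [mul_pow, Real.sq_sqrt h0.le]
    simp only [N, Pi.smul_apply, smul_eq_mul, norm_mul, mul_pow]
    rw [mul_add, mul_one, Finset.mul_sum]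
  rw [mem_B, mem_ball_zero_iff, ← one_div, lt_div_iff₀ h1, h2, sq_lt_one_iff₀ (by positivity)]

theorem C2a (d : ℕ) : C2a d := by
  intro F hF
  have hG : Measurable ((B d).indicator F) := hF.indicator B_meas
  rw [← lintegral_indicator B_meas, Measure.volume_eq_prod, lintegral_prod _ hG.aemeasurable]
  have h1 : ∀ᵐ τ : ℂ ∂volume, τ ≠ 0 := by
    rw [ae_iff]
    simp
  have h2 : ∫⁻ τ : ℂ, ∫⁻ ζ : Fin d → ℂ, (B d).indicator F (τ, ζ) =
      ∫⁻ τ : ℂ, ∫⁻ s : Fin d → ℂ,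
        ENNReal.ofReal (‖τ‖ ^ (2 * d)) * (B d).indicator F (τ, τ • s) := by
    refine lintegral_congr_ae ?_
    filter_upwards [h1] with τ hτ
    exact scale τ hτ (fun ζ => (B d).indicator F (τ, ζ)) (hG.comp (by fun_prop))
  rw [h2, lintegral_lintegral_swap]
  · refine lintegral_congr fun s => ?_
    rw [← lintegral_indicator measurableSet_ball]
    refine lintegral_congr fun τ => ?_
    by_cases h : τ ∈ Metric.ball (0 : ℂ) (Real.sqrt (1 + ∑ i, ‖s i‖ ^ 2))⁻¹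
    · rw [indicator_of_mem h, indicator_of_mem ((mem_iff τ s).mpr h)]
    · rw [indicator_of_notMem h, indicator_of_notMem (fun h' => h ((mem_iff τ s).mp h')), mul_zero]
  · apply Measurable.aemeasurable
    refine Measurable.mul (by fun_prop) (hG.comp ?_)
    fun_prop

end Pool.Agent.N27.RJ
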